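import Pool.Agent.N594.CT.Stm

/-! # CT/BA: graphs, Turán's theorem (helper570) -/

set_option autoImplicit false

open Finset
open scoped Classical

namespace Pool.Agent.N570.CT.BA

open Pool.Agent.N594.CT

/-- the graph -/
def gr {V : Type} (H : Finset V → Prop) : SimpleGraph V where
  Adj u v := u ≠ v ∧ H {u, v}
  symm := ⟨fun u v h => ⟨h.1.symm, by rw [pair_comm]; exact h.2⟩⟩
  loopless := ⟨fun u h => h.1 rfl⟩

theorem gr_adj {V : Type} (H : Finset V → Prop) (u v : V) :
    (gr H).Adj u v ↔ u ≠ v ∧ H {u, v} := Iff.rfl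

theorem image_two {V : Type} (x : Fin 2 → V) : (univ.image x) = {x 0, x 1} := by
  ext v
  simp only [mem_image, mem_univ, true_and, mem_insert, mem_singleton, Fin.exists_fin_two]
  constructor
  · rintro (h | h)
    · exact Or.inl h.symm
    · exact Or.inr h.symm
  · rintro (h | h)
    · exact Or.inl h.symm
    · exact Or.inr h.symm

theorem E_eq {V : Type} [Fintype V] (H : Finset V → Prop) (hU : Unif 2 H) :
    E 2 H = 2 * (gr H).edgeFinset.card := by
  rw [← SimpleGraph.sum_degrees_eq_twice_card_edges]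
  have h1 : E 2 H = (univ.filter fun p : V × V => (gr H).Adj p.1 p.2).card := by
    unfold E
    refine card_bij (fun x _ => (x 0, x 1)) ?_ ?_ ?_
    · intro x hx
      rw [mem_filter, image_two] at hx
      rw [mem_filter]
      refine ⟨mem_univ _, ?_, hx.2⟩
      intro h
      have h2 := hU _ hx.2
      simp only at h
      rw [h, pair_eq_singleton, card_singleton] at h2
      omega
    · intro x _ y _ h
      have h1 := congrArg Prod.fst h
      have h2 := congrArg Prod.snd h
      funext i
      fin_cases i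
      · exact h1
      · exact h2
    · rintro ⟨u, v⟩ hp
      rw [mem_filter] at hp
      refine ⟨![u, v], ?_, rfl⟩
      rw [mem_filter, image_two]
      exact ⟨mem_univ _, hp.2.2⟩
  rw [h1, ← univ_product_univ, card_filter, sum_product]
  refine sum_congr rfl fun u _ => ?_
  rw [← card_filter, ← SimpleGraph.card_neighborFinset_eq_degree]
  congr 1
  ext v
  simp

theorem cf {V : Type} (hW : S_W) (H : Finset V → Prop) (k q : ℕ) (hq : 2 ≤ q)
    (hC : Cls 2 k q H) : (gr H).CliqueFree (k + 1) := by
  rw [SimpleGraph.cliqueFree_iff]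
  refine ⟨fun f => ?_⟩
  set ρ : Fin (k + 1) → V := fun i => f i with hρ
  set c : Fin (k + 1) → ℕ := fun i => if i = Fin.last k then 1 else q - 1 with hc
  have hsum : ∑ i, c i = k * (q - 1) + 1 := by
    rw [Fin.sum_univ_castSucc]
    have h1 : ∀ i : Fin k, c i.castSucc = q - 1 := by
      intro i
      simp only [hc]
      rw [if_neg (Fin.castSucc_lt_last i).ne]
    simp only [h1, sum_const, card_univ, Fintype.card_fin, smul_eq_mul]
    simp [hc]
  obtain ⟨I, hI, hq2⟩ := hW 2 k q V H hC (Fin (k + 1)) ρ c hsum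
  have hc1 : ∀ i, c i ≤ q - 1 := by
    intro i
    simp only [hc]
    split_ifs
    · omega
    · exact le_refl _
  have hcard : 1 < I.card := by
    by_contra hcon
    rw [not_lt] at hcon
    have h1 : ∑ i ∈ I, c i ≤ I.card * (q - 1) := by
      rw [← smul_eq_mul]
      exact sum_le_card_nsmul I c (q - 1) fun i _ => hc1 i
    have h2 : I.card * (q - 1) ≤ 1 * (q - 1) := Nat.mul_le_mul_right _ hcon
    omega
  obtain ⟨i, hi, j, hj, hij⟩ := one_lt_card.1 hcard
  have he : ({i, j} : Finset (Fin (k + 1))) ⊆ I := by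
    intro x hx
    rw [mem_insert, mem_singleton] at hx
    rcases hx with rfl | rfl
    · exact hi
    · exact hj
  refine hI _ he (card_pair hij) ?_
  have hadj : (gr H).Adj (f i) (f j) := f.toHom.map_rel (by simpa using hij)
  rw [image_insert, image_singleton]
  exact hadj.2

theorem main (hW : S_W) : S_BA := by
  intro k q hk hq V _ _ H hU hC
  have h1 := (cf hW H k q hq hC).card_edgeFinset_le
  simp only at h1
  rw [← SimpleGraph.card_edgeFinset_turanGraph] at h1
  have h2 := SimpleGraph.mul_card_edgeFinset_turanGraph_le (n := Fintype.card V) (r := k)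
  set n := Fintype.card V with hn
  have hn0 : 0 < n := Fintype.card_pos
  have h3 : k * E 2 H ≤ (k - 1) * n ^ 2 := by
    rw [E_eq H hU]
    calc k * (2 * (gr H).edgeFinset.card) = 2 * k * (gr H).edgeFinset.card := by ring
      _ ≤ 2 * k * (SimpleGraph.turanGraph n k).edgeFinset.card := by
          refine Nat.mul_le_mul_left _ ?_
          convert h1 using 1
      _ ≤ (k - 1) * n ^ 2 := by
          convert h2 using 1
  have h4 : (k : ℝ) * E 2 H ≤ ((k : ℝ) - 1) * (n : ℝ) ^ 2 := by
    have h5 : ((k * E 2 H : ℕ) : ℝ) ≤ (((k - 1) * n ^ 2 : ℕ) : ℝ) := by exact_mod_cast h3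
    push_cast [Nat.cast_sub hk] at h5
    exact h5
  unfold den kap
  have hkR : (0 : ℝ) < k := by exact_mod_cast hk
  have hnR : (0 : ℝ) < n := by exact_mod_cast hn0
  rw [div_le_iff₀ (by positivity)]
  have h6 : (1 - 1 / (k : ℝ) ^ (2 - 1)) * (n : ℝ) ^ 2 = ((k : ℝ) - 1) * (n : ℝ) ^ 2 / k := by
    rw [show (2 - 1 : ℕ) = 1 from rfl, pow_one]
    field_simp
  rw [h6, le_div_iff₀ hkR]
  linarith

end Pool.Agent.N570.CT.BA
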